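import Pool.Agent.P8H50.NK.Stm4

/-!
Project NK (helper50), package LGE.
-/

set_option autoImplicit false
set_option linter.overlappingInstances false

namespace Pool.Agent.P8H86.NK

open FF Pool.Agent.W602.GT Pool.Agent.W603.LV Pool.Agent.W603.PV Pool.Agent.P8H50.NK

section

variable {k K : Type} [Field k] [Field K] [Algebra k K]

theorem ord_prod (P : Place k K) {ι : Type*} (s : Finset ι) (f : ι → K) (h : ∀ i ∈ s, f i ≠ 0) :
    P.ord (∏ i ∈ s, f i) = ∑ i ∈ s, P.ord (f i) := by
  classical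
  induction s using Finset.induction_on with
  | empty => simpa using P.ord_one
  | insert a s ha ih =>
    rw [Finset.prod_insert ha, Finset.sum_insert ha, P.ord_mul (h a (Finset.mem_insert_self a s))
      (Finset.prod_ne_zero_iff.2 fun i hi => h i (Finset.mem_insert_of_mem hi)),
      ih fun i hi => h i (Finset.mem_insert_of_mem hi)]

/-- completing independent rows to an invertible matrix -/
theorem complete {n q : ℕ} (M : Fin q → Fin (n + 1) → k) (b : Finset (Fin q))
    (hb : LinearIndepOn k M (b : Set (Fin q))) :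
    ∃ (B : Matrix (Fin (n + 1)) (Fin (n + 1)) k) (ι : Fin q → Fin (n + 1)),
      LinearIndependent k (fun i => B i) ∧ (∀ l ∈ b, B (ι l) = M l) ∧ Set.InjOn ι b := by
  classical
  have hs : LinearIndepOn k id (M '' (b : Set (Fin q))) := hb.id_image
  let β := Module.Basis.extend hs
  let e := β.indexEquiv (Pi.basisFun k (Fin (n + 1)))
  have hmem : ∀ l, l ∈ b → M l ∈ hs.extend (Set.subset_univ _) := fun l hl =>
    hs.subset_extend _ ⟨l, hl, rfl⟩
  have hβ : ∀ x, β x = (x : Fin (n + 1) → k) := fun x => Module.Basis.extend_apply_self hs x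
  refine ⟨fun i => β (e.symm i), fun l => if h : l ∈ b then e ⟨M l, hmem l h⟩ else 0, ?_, ?_, ?_⟩
  · have h1 := (β.reindex e).linearIndependent
    rw [Module.Basis.coe_reindex] at h1
    exact h1
  · intro l hl
    simp only [dif_pos hl, Equiv.symm_apply_apply, hβ]
  · intro l hl l' hl' h
    have hl1 : l ∈ b := hl
    have hl2 : l' ∈ b := hl'
    simp only [dif_pos hl1, dif_pos hl2] at h
    have h2 : M l = M l' := congrArg Subtype.val (e.injective h)
    exact hb.injOn hl hl' h2

/-- one factor -/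
theorem factor (P : Place k K) {n q : ℕ} (y : Fin (n + 1) → K)
    (ℓ : Fin q → Fin (n + 1) → k) (J : Finset (Fin q)) (hl : ∀ l, lk (ℓ l) y ≠ 0)
    (hJ : LinearIndepOn k ℓ (J : Set (Fin q))) :
    ∃ (C : Matrix (Fin (n + 1)) (Fin (n + 1)) k) (c : K) (α : Fin (n + 1) → ℕ),
      C.det ≠ 0 ∧ c ≠ 0 ∧ P.ord c = - pord P y ∧
      (∀ a, Ge P (α a) (c * ∑ b, algebraMap k K (C a b) * y b)) ∧
      ∑ a, (α a : ℤ) = ∑ l ∈ J, (P.ord (lk (ℓ l) y) - pord P y) := by
  classical
  obtain ⟨B, ι, hB, hBM, hι⟩ := complete ℓ J hJ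
  have hdet : B.det ≠ 0 := by
    have h1 : IsUnit B := Matrix.linearIndependent_rows_iff_isUnit.1 hB
    exact ((Matrix.isUnit_iff_isUnit_det B).1 h1).ne_zero
  set μ := pord P y with hμ
  have hπ : P.ord (unif P) = 1 := ord_unif P
  set π := unif P with hπd
  have hπ0 : π ≠ 0 := by
    intro h
    rw [h, P.ord_zero] at hπ
    omega
  have hcord : P.ord (π ^ (-μ)) = -μ := by rw [P.ord_zpow, hπ, mul_one]
  have hge : ∀ v : Fin (n + 1) → k, Ge P μ (∑ b, algebraMap k K (v b) * y b) := by
    intro v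
    refine Ge.sum _ _ fun j _ => ?_
    have := (Ge.const (P := P) (v j)).mul (ge_pord P y j)
    rwa [zero_add] at this
  have hge' : ∀ l, μ ≤ P.ord (lk (ℓ l) y) := fun l => (hge (ℓ l)).resolve_left (hl l)
  refine ⟨B, π ^ (-μ), fun a => ∑ l ∈ J with ι l = a, (P.ord (lk (ℓ l) y) - μ).toNat, hdet,
    zpow_ne_zero _ hπ0, hcord, ?_, ?_⟩
  · intro a
    have h0 : Ge P (-μ) (π ^ (-μ)) := Or.inr hcord.ge
    beta_reduce
    by_cases ha : ∃ l ∈ J, ι l = a
    · obtain ⟨l, hl1, rfl⟩ := ha
      have hf : (J.filter fun l' => ι l' = ι l) = {l} := by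
        ext l'
        simp only [Finset.mem_filter, Finset.mem_singleton]
        constructor
        · rintro ⟨h1, h2⟩
          exact hι h1 hl1 h2
        · rintro rfl
          exact ⟨hl1, rfl⟩
      rw [hf, Finset.sum_singleton]
      have h1 : (∑ b, algebraMap k K (B (ι l) b) * y b) = lk (ℓ l) y := by
        rw [hBM l hl1]
        rfl
      rw [h1]
      right
      have h2 := hge' l
      rw [P.ord_mul (zpow_ne_zero _ hπ0) (hl l), hcord, Int.toNat_of_nonneg (by omega)]
      omega
    · have hf : (J.filter fun l' => ι l' = a) = ∅ := by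
        rw [Finset.filter_eq_empty_iff]
        intro l hl1 h
        exact ha ⟨l, hl1, h⟩
      rw [hf, Finset.sum_empty]
      have := h0.mul (hge (B a))
      simpa using this
  · rw [← Nat.cast_sum, Finset.sum_fiberwise, Nat.cast_sum]
    refine Finset.sum_congr rfl fun l _ => ?_
    have h2 := hge' l
    rw [Int.toNat_of_nonneg (by omega)]

end

/-- **LGE** -/
theorem lge (hLGD : S_LGD) (hLGB : S_LGB) : S_LGE := by
  intro k K _ _ _ _ _ s w n q ε P D hreg y ℓ J hy hl hJ
  classical
  have hfac := fun j => factor P (y j) (ℓ j) (J j) (hl j) (hJ j)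
  choose C c α hC hc hcord hge hsum using hfac
  have h1 := hLGD k K s w n ε P D hreg
    (fun j a => c j * ∑ b, algebraMap k K (C j a b) * y j b) α hge
  have h2 := hLGB k K s w n ε D y C c hc
  rw [h2] at h1
  have ha : (∏ j, c j ^ (n j + 1)) ≠ 0 := Finset.prod_ne_zero_iff.2 fun j _ => pow_ne_zero _ (hc j)
  have hCj : ∀ j, algebraMap k K (C j).det ≠ 0 := fun j => by
    rw [Ne, map_eq_zero]
    exact hC j
  have hb : (∏ j, algebraMap k K (C j).det) ≠ 0 := Finset.prod_ne_zero_iff.2 fun j _ => hCj j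
  have hord : P.ord ((∏ j, c j ^ (n j + 1)) * (∏ j, algebraMap k K (C j).det)) =
      - ∑ j, (n j + 1 : ℤ) * pord P (y j) := by
    rw [P.ord_mul ha hb, ord_prod P _ _ fun j _ => pow_ne_zero _ (hc j),
      ord_prod P _ _ fun j _ => hCj j, Finset.sum_eq_zero (fun j _ => P.ord_const (hC j)),
      add_zero, ← Finset.sum_neg_distrib]
    refine Finset.sum_congr rfl fun j _ => ?_
    rw [P.ord_pow, hcord]
    push_cast
    ring
  obtain ⟨h3, h4⟩ := h1
  constructor
  · have h5 := Ge.of_mul (mul_ne_zero ha hb) h3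
    rw [hord] at h5
    convert h5 using 1
    rw [Finset.sum_add_distrib, Finset.sum_congr rfl fun j _ => hsum j]
    ring
  · have h5 := Ge.of_mul (mul_ne_zero ha hb) h4
    rw [hord] at h5
    simpa using h5

end Pool.Agent.P8H86.NK
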